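import Pool.Agent.helper51.VF.SpecC

/-!
# Project vf, row ICQ
-/

set_option autoImplicit false

namespace Pool.Agent.VF

open Pool.Agent.PC Pool.Agent.QS MvPolynomial

universe u

private theorem ICQ_int {T : Type u} [CommRing T] [IsDomain T] (r s : T) (hs : s ≠ 0)
    (hint : IsIntegral T (algebraMap T (FractionRing T) r / algebraMap T (FractionRing T) s)) :
    ∃ (N : ℕ) (a : ℕ → T), 0 < N ∧ r ^ N + ∑ i ∈ Finset.range N, a i * r ^ i * s ^ (N - i) = 0 := by
  obtain ⟨P, hP, hPe⟩ := hint
  have hs' : algebraMap T (FractionRing T) s ≠ 0 := by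
    intro h0
    exact hs ((IsFractionRing.injective T (FractionRing T)) (h0.trans (map_zero _).symm))
  refine ⟨P.natDegree, P.coeff, ?_, ?_⟩
  · rw [Nat.pos_iff_ne_zero]
    intro h0
    have h1 : P = 1 := Polynomial.eq_one_of_monic_natDegree_zero hP h0
    rw [h1, Polynomial.eval₂_one] at hPe
    exact one_ne_zero hPe
  · apply IsFractionRing.injective T (FractionRing T)
    rw [map_zero]
    rw [Polynomial.eval₂_eq_sum_range, Finset.sum_range_succ, hP.coeff_natDegree, map_one,
      one_mul] at hPe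
    have h2 := congrArg (fun x => algebraMap T (FractionRing T) s ^ P.natDegree * x) hPe
    simp only [mul_zero] at h2
    rw [← h2, map_add, map_pow, map_sum, mul_add, add_comm]
    congr 1
    · rw [Finset.mul_sum]
      refine Finset.sum_congr rfl fun i hi => ?_
      rw [map_mul, map_mul, map_pow, map_pow, div_pow]
      have hi' : i ≤ P.natDegree := (Finset.mem_range.1 hi).le
      have e : algebraMap T (FractionRing T) s ^ P.natDegree =
          algebraMap T (FractionRing T) s ^ (P.natDegree - i) *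
            algebraMap T (FractionRing T) s ^ i := by
        rw [← pow_add, Nat.sub_add_cancel hi']
      rw [e]
      field_simp
    · rw [div_pow]
      field_simp

theorem ICQ : ICQ_stmt.{u} := by
  intro R _ S hS H
  have hdom : IsDomain (R ⧸ S) := Ideal.Quotient.isDomain S
  rw [isIntegrallyClosed_iff (FractionRing (R ⧸ S))]
  intro x hx
  obtain ⟨rb, sb, hsb, hxe⟩ := IsFractionRing.div_surjective (A := R ⧸ S) x
  have hsb0 : sb ≠ 0 := nonZeroDivisors.ne_zero hsb
  rw [← hxe] at hx
  obtain ⟨N, ab, hN, hab⟩ := ICQ_int rb sb hsb0 hx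
  obtain ⟨r, rfl⟩ := Ideal.Quotient.mk_surjective rb
  obtain ⟨s, rfl⟩ := Ideal.Quotient.mk_surjective sb
  have hs : s ∉ S := fun h => hsb0 (Ideal.Quotient.eq_zero_iff_mem.2 h)
  choose a ha using fun i => Ideal.Quotient.mk_surjective (I := S) (ab i)
  have hrel : r ^ N + ∑ i ∈ Finset.range N, a i * r ^ i * s ^ (N - i) ∈ S := by
    rw [← Ideal.Quotient.eq_zero_iff_mem, map_add, map_pow, map_sum, ← hab]
    congr 1
    refine Finset.sum_congr rfl fun i _ => ?_
    rw [map_mul, map_mul, map_pow, map_pow, ha]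
  have hmem := H r s hs ⟨N, a, hN, hrel⟩
  obtain ⟨y, hy, i, hi, hyi⟩ := Submodule.mem_sup.1 hmem
  obtain ⟨b, hb⟩ := Ideal.mem_span_singleton'.1 hy
  have hq : Ideal.Quotient.mk S r = Ideal.Quotient.mk S b * Ideal.Quotient.mk S s := by
    rw [← map_mul, hb, ← hyi, map_add, Ideal.Quotient.eq_zero_iff_mem.2 hi, add_zero]
  refine ⟨Ideal.Quotient.mk S b, ?_⟩
  rw [← hxe, hq, map_mul]
  have hs' : algebraMap (R ⧸ S) (FractionRing (R ⧸ S)) (Ideal.Quotient.mk S s) ≠ 0 := by
    intro h0
    exact hsb0 ((IsFractionRing.injective (R ⧸ S) (FractionRing (R ⧸ S)))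
      (h0.trans (map_zero _).symm))
  rw [mul_div_assoc, div_self hs', mul_one]

end Pool.Agent.VF
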