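import Pool.Agent.helper51.VF.SpecA

/-!
# Project vf, row JUB
-/

set_option autoImplicit false

namespace Pool.Agent.VF

open Pool.Agent.PC Pool.Agent.QS MvPolynomial

universe u

private theorem JUB_star {K : Type u} [Field K] {n : ℕ} (M : Matrix (Fin n) (Fin n) K)
    (i0 l0 : Fin n) :
    (M.updateCol l0 (Pi.single i0 1)).det = (M.updateRow i0 (Pi.single l0 1)).det := by
  rw [← Matrix.adjugate_apply, ← Matrix.cramer_apply, Matrix.cramer_eq_adjugate_mulVec,
    Matrix.mulVec_single_one]
  rfl

private theorem JUB_row {K : Type u} [Field K] {n : ℕ} (M N : Matrix (Fin n) (Fin n) K)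
    (i0 l0 : Fin n) (h : ∀ i l, i ≠ i0 → l ≠ l0 → M i l = N i l) :
    (M.updateRow i0 (Pi.single l0 1)).det = (N.updateRow i0 (Pi.single l0 1)).det := by
  have h1 : ∀ A : Matrix (Fin n) (Fin n) K, (A.updateRow i0 (Pi.single l0 1)).det =
      ((A.updateRow i0 (Pi.single l0 1)).updateCol l0 (Pi.single i0 1)).det := by
    intro A
    rw [JUB_star, Matrix.updateRow_idem]
  rw [h1 M, h1 N]
  congr 1
  ext i l
  by_cases hl : l = l0
  · subst hl
    rw [Matrix.updateCol_self, Matrix.updateCol_self]
  · rw [Matrix.updateCol_ne hl, Matrix.updateCol_ne hl]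
    by_cases hi : i = i0
    · subst hi
      rw [Matrix.updateRow_self, Matrix.updateRow_self]
    · rw [Matrix.updateRow_ne hi, Matrix.updateRow_ne hi]
      exact h i l hi hl

private theorem JUB_col {K : Type u} [Field K] {n : ℕ} (M : Matrix (Fin n) (Fin n) K)
    (l0 : Fin n) (a : Fin n → K) :
    (M.updateCol l0 (M.mulVec a)).det = M.det * a l0 := by
  rw [← Matrix.cramer_apply, Matrix.cramer_eq_adjugate_mulVec, Matrix.mulVec_mulVec,
    Matrix.adjugate_mul, Matrix.smul_mulVec, Matrix.one_mulVec, Pi.smul_apply, smul_eq_mul]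

theorem JUB (hEXP : EXP_stmt.{u}) : JUB_stmt.{u} := by
  classical
  intro k F K _ _ _ _ _ _ _ p _ _ n D y hn hfin hdual δ T hT l0 hd f i0 c hc
  have hE := hEXP k K n D y hn hfin hdual (δ.restrictScalars k)
  have hE' : ∀ x : K, δ x = ∑ l, δ (y l) * D l x := hE
  set x : Fin n → K := Function.update (fun i => algebraMap F K (f i)) i0 c with hx
  set M : Matrix (Fin n) (Fin n) K := Matrix.of fun i l => D l (x i) with hM
  set N : Matrix (Fin n) (Fin n) K :=
    Matrix.of fun i l => if l = l0 then T (f i) else D l (algebraMap F K (f i)) with hN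
  have hp0 : (p : K) = 0 := CharP.cast_eq_zero K p
  have hppos : 0 < p := (Fact.out : p.Prime).pos
  -- the column
  have h1 : M.mulVec (fun l => δ (y l)) = (δ c) • (Pi.single i0 1 : Fin n → K) := by
    ext i
    have h2 : M.mulVec (fun l => δ (y l)) i = δ (x i) := by
      rw [hE' (x i)]
      unfold Matrix.mulVec dotProduct
      refine Finset.sum_congr rfl fun l _ => ?_
      have h0 : M i l = D l (x i) := rfl
      show M i l * δ (y l) = δ (y l) * D l (x i)
      rw [h0, mul_comm]
    rw [h2, Pi.smul_apply, smul_eq_mul]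
    by_cases hi : i = i0
    · subst hi
      rw [hx, Function.update_self, Pi.single_eq_same, mul_one]
    · rw [hx, Function.update_of_ne hi, Derivation.map_algebraMap, Pi.single_eq_of_ne hi, mul_zero]
  have h3 : M.det * δ (y l0) = δ c * (M.updateCol l0 (Pi.single i0 1)).det := by
    rw [← JUB_col M l0 (fun l => δ (y l)), h1, Matrix.det_updateCol_smul]
  -- the row
  have h4 : N = N.updateRow i0 ((δ c ^ p) • (Pi.single l0 1 : Fin n → K)) := by
    ext i l
    by_cases hi : i = i0
    · subst hi
      rw [Matrix.updateRow_self, Pi.smul_apply, smul_eq_mul, hN, Matrix.of_apply]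
      by_cases hl : l = l0
      · subst hl
        rw [if_pos rfl, Pi.single_eq_same, mul_one]
        exact hT c (f i) hc
      · rw [if_neg hl, Pi.single_eq_of_ne hl, mul_zero, hc, Derivation.leibniz_pow, nsmul_eq_mul,
          hp0, zero_mul]
    · rw [Matrix.updateRow_ne hi]
  have h5 : N.det = δ c ^ p * (N.updateRow i0 (Pi.single l0 1)).det := by
    conv_lhs => rw [h4]
    rw [Matrix.det_updateRow_smul]
  have h6 : (N.updateRow i0 (Pi.single l0 1)).det = (M.updateCol l0 (Pi.single i0 1)).det := by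
    rw [JUB_star]
    refine JUB_row N M i0 l0 fun i l hi hl => ?_
    rw [hN, hM, Matrix.of_apply, Matrix.of_apply, if_neg hl, hx, Function.update_of_ne hi]
  have h7 : JF T D l0 (δ (y l0)) f = (δ (y l0))⁻¹ * N.det := rfl
  have h8 : JJ D x = M.det := rfl
  rw [h7, h8, h5, h6]
  have h9 : M.det = (δ (y l0))⁻¹ * (δ c * (M.updateCol l0 (Pi.single i0 1)).det) := by
    rw [← h3]
    field_simp
  have h10 : δ c ^ p = δ c ^ (p - 1) * δ c := by
    rw [← pow_succ, Nat.sub_add_cancel hppos]
  conv_rhs => rw [h9]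
  rw [h10]
  ring

end Pool.Agent.VF
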